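import Mathlib

/-!
# Base resolvability is not preserved by products

We construct, in ZFC, a compact Hausdorff space `K` (a Cantor cube of weight continuum) and a
completely metrizable space `Y` (a countable product of discrete spaces), both without isolated
points and both base resolvable, such that `K × Y` is not base resolvable.

Part 1 (`baseResolvable_cube`): an uncountable Cantor cube is base resolvable.  Given a base `B`,
a transfinite greedy procedure chooses pairwise disjoint finite subfamilies of `B`, two of them for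
each basic clopen set `cyl F G`, covering this set and consisting of subsets of it.

Part 2 (`baseResolvable_tree`): a countable power of a discrete space is base resolvable.  For a base
`B` let `lev b n` say that `n` is the first coordinate where points of `b` differ.  Points `y` and
numbers `n` get a colour `col B y n`, depending only on the first `n` coordinates of `y`: opposite to
the colour at the largest `m < n` for which some `b` in `B` with `lev b m` contains the basic set
`cy y n`.  A member `b` of `B` gets the colour at its level.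

Part 3 (`not_resolvable`): a base of `K × Y` that cannot be split.
Coordinates of `K` are pairs `(n, w)`, where `n` is the level and `w` is a 0-1 sequence.  A finite
set `v` of coordinates of level at most `n` gets a private coordinate `(n + 1, e v)` of level
`n + 1`.  A point `y` of `Y` is a sequence of colourings `y n` of finite sets of coordinates.  The
colouring `y n` determines a colour `ii y n`: it is `false` if the members of colour `false` are
cofinal in the finite sets of level at most `n`; otherwise it is `true` and there is `uu n (y n)` all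
of whose supersets (of level at most `n`) have colour `true`.  The set `V y n` of accepted finite
sets consists of members of that colour: all members of colour `false` in the first case, and in the
second case all supersets of `uu n (y n)` containing no new coordinate from `R y n`, where `R y n` is
the set of the coordinates `(0, r (τ, a))` for which `τ` is infinitely often `false` and agrees with
the colours `ii y j`, `j ≤ n`.  The point `ks y` of `K` is `true` at `(n + 1, e v)` exactly when `v`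
is accepted.  The base `Bs` consists of the sets `Main y n v` (they are the neighbourhoods of the
points of the graph of `ks`) and of all open sets disjoint from the graph of `ks`, a closed set.
Given a splitting of `Bs` into two families, i.e. a colouring of `Bs`, there is a play `y` along
which `y n v` is the colour of `Main y n v`, and one of the two colours is not a base at `(ks y, y)`:
if `ii y n = false` for infinitely many `n`, then `true` fails below the coordinate
`(0, r (ii y, a))` for a suitable `a`; otherwise `false` fails below any coordinate of high level.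
-/

set_option autoImplicit false

open TopologicalSpace Set

namespace Pool.Agent.Results.MP_155eb7_gt.ProductCounterexample

/-- `X` has no isolated points. -/
def DenseInItself (X : Type) [TopologicalSpace X] : Prop :=
  ∀ x : X, ¬ IsOpen ({x} : Set X)

/-- Every base of `X` is the union of two disjoint families both of which are bases of `X`. -/
def BaseResolvable (X : Type) [TopologicalSpace X] : Prop :=
  ∀ B : Set (Set X), IsTopologicalBasis B →
    ∃ B₀ B₁ : Set (Set X), B₀ ∪ B₁ = B ∧ B₀ ∩ B₁ = ∅ ∧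
      IsTopologicalBasis B₀ ∧ IsTopologicalBasis B₁

theorem greedy {ι α : Type} (hι : Cardinal.aleph0 < Cardinal.mk ι) (P : ι → Finset α → Prop)
    (h : ∀ i, ∀ U : Set α, Cardinal.mk U < Cardinal.mk ι → ∃ A : Finset α, P i A ∧ ∀ a ∈ A, a ∉ U) :
    ∃ A : ι → Finset α, (∀ i, P i (A i)) ∧ ∀ i j, i ≠ j → ∀ a ∈ A i, a ∉ A j := by
  classical
  obtain ⟨_, wo, hr⟩ := Cardinal.exists_ord_eq_type_lt ι
  let F : (i : ι) → ((j : ι) → j < i → Finset α) → Finset α := fun i rec =>
    if hU : Cardinal.mk (⋃ (j : ι) (hj : j < i), (rec j hj : Set α) : Set α) < Cardinal.mk ι then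
      (h i _ hU).choose else ∅
  let A : ι → Finset α := wellFounded_lt.fix F
  have hA : ∀ i, A i = F i (fun j _ => A j) := fun i => wellFounded_lt.fix_eq F i
  have hcard : ∀ i, Cardinal.mk (⋃ (j : ι) (_ : j < i), (A j : Set α) : Set α) < Cardinal.mk ι := by
    intro i
    have h1 : (⋃ (j : ι) (_ : j < i), (A j : Set α) : Set α) =
        ⋃ (j : Iio i), (A j : Set α) := by
      ext a; simp
    rw [h1]
    have h2 : Cardinal.mk (Iio i) < Cardinal.mk ι := Cardinal.mk_Iio_lt i hr
    refine lt_of_le_of_lt (Cardinal.mk_iUnion_le _) ?_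
    refine Cardinal.mul_lt_of_lt hι.le h2 (lt_of_le_of_lt ?_ hι)
    refine ciSup_le' fun j => ?_
    exact (Cardinal.lt_aleph0_of_finite _).le
  have hspec : ∀ i, P i (A i) ∧ ∀ a ∈ A i, a ∉ (⋃ (j : ι) (_ : j < i), (A j : Set α) : Set α) := by
    intro i
    have h3 : A i = (h i _ (hcard i)).choose := by
      rw [hA i]
      exact dif_pos (hcard i)
    rw [h3]
    exact (h i _ (hcard i)).choose_spec
  refine ⟨A, fun i => (hspec i).1, fun i j hij a hai haj => ?_⟩
  rcases lt_trichotomy i j with hij' | hij' | hij'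
  · exact (hspec j).2 a haj (by simp only [mem_iUnion]; exact ⟨i, hij', hai⟩)
  · exact hij hij'
  · exact (hspec i).2 a hai (by simp only [mem_iUnion]; exact ⟨j, hij', haj⟩)

namespace Cube

variable {S : Type}

/-- basic clopen sets of the cube -/
def cyl (F G : Finset S) : Set (S → Bool) := {k | (∀ x ∈ F, k x = true) ∧ ∀ x ∈ G, k x = false}

theorem isOpen_coord' (ξ : S) (β : Bool) : IsOpen {k : S → Bool | k ξ = β} :=
  (isOpen_discrete ({β} : Set Bool)).preimage (show Continuous fun k : S → Bool => k ξ by fun_prop)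

theorem isClosed_coord' (ξ : S) (β : Bool) : IsClosed {k : S → Bool | k ξ = β} :=
  (isClosed_discrete ({β} : Set Bool)).preimage
    (show Continuous fun k : S → Bool => k ξ by fun_prop)

theorem cyl_eq (F G : Finset S) : cyl F G =
    (⋂ x ∈ F, {k : S → Bool | k x = true}) ∩ ⋂ x ∈ G, {k : S → Bool | k x = false} := by
  ext k; simp [cyl]

theorem isOpen_cylK (F G : Finset S) : IsOpen (cyl F G) := by
  rw [cyl_eq]
  exact (isOpen_biInter_finset fun x _ => isOpen_coord' x _).inter
    (isOpen_biInter_finset fun x _ => isOpen_coord' x _)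

theorem isClosed_cylK (F G : Finset S) : IsClosed (cyl F G) := by
  rw [cyl_eq]
  exact (isClosed_biInter fun x _ => isClosed_coord' x _).inter
    (isClosed_biInter fun x _ => isClosed_coord' x _)

theorem exists_finset {O : Set (S → Bool)} (hO : IsOpen O) {k : S → Bool} (hk : k ∈ O) :
    ∃ F : Finset S, ∀ k' : S → Bool, (∀ x ∈ F, k' x = k x) → k' ∈ O := by
  obtain ⟨F, u, hu, hFU⟩ := isOpen_pi_iff.1 hO k hk
  refine ⟨F, fun k' h1 => hFU fun x hx => ?_⟩
  rw [h1 x (by simpa using hx)]
  exact (hu x (by simpa using hx)).2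

theorem exists_cyl {O : Set (S → Bool)} (hO : IsOpen O) {k : S → Bool} (hk : k ∈ O) :
    ∃ F G : Finset S, k ∈ cyl F G ∧ cyl F G ⊆ O := by
  classical
  obtain ⟨F, hF⟩ := exists_finset hO hk
  refine ⟨F.filter (fun x => k x = true), F.filter (fun x => k x = false), ⟨?_, ?_⟩, ?_⟩
  · intro x hx; exact (Finset.mem_filter.1 hx).2
  · intro x hx; exact (Finset.mem_filter.1 hx).2
  · rintro k' ⟨h1, h2⟩
    refine hF k' fun x hx => ?_
    cases hkx : k x with
    | true => exact h1 x (Finset.mem_filter.2 ⟨hx, hkx⟩)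
    | false => exact h2 x (Finset.mem_filter.2 ⟨hx, hkx⟩)

theorem baseResolvable_cube (hS : Cardinal.aleph0 < Cardinal.mk S) : BaseResolvable (S → Bool) := by
  classical
  intro B hB
  have : Infinite S := Cardinal.infinite_iff.2 hS.le
  have hcardι : Cardinal.mk ((Finset S × Finset S) × Bool) = Cardinal.mk S := by
    have h1 : Cardinal.mk (Finset S) = Cardinal.mk S := Cardinal.mk_finset_of_infinite S
    rw [Cardinal.mk_prod, Cardinal.mk_prod]
    simp only [Cardinal.lift_id, h1]
    rw [Cardinal.mul_eq_self hS.le]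
    exact Cardinal.mul_eq_left hS.le ((Cardinal.lt_aleph0_of_finite Bool).le.trans hS.le)
      (by simp)
  obtain ⟨A, hA, hdis⟩ := greedy (ι := (Finset S × Finset S) × Bool) (α := Set (S → Bool))
    (by rw [hcardι]; exact hS)
    (fun i A => (∀ b ∈ A, b ∈ B ∧ b ⊆ cyl i.1.1 i.1.2) ∧ ∀ k ∈ cyl i.1.1 i.1.2, ∃ b ∈ A, k ∈ b) (by
      intro i U hU
      rw [hcardι] at hU
      have key : ∀ k ∈ cyl i.1.1 i.1.2, ∃ b ∈ B, b ∉ U ∧ k ∈ b ∧ b ⊆ cyl i.1.1 i.1.2 := by
        intro k hk
        by_contra hcon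
        push Not at hcon
        have hb : ∀ ξ : S, ∃ b ∈ U, IsOpen b ∧ k ∈ b ∧ b ⊆ {k' | k' ξ = k ξ} := by
          intro ξ
          obtain ⟨b, hb, hkb, hbs⟩ := hB.exists_subset_of_mem_open
            (show k ∈ cyl i.1.1 i.1.2 ∩ {k' | k' ξ = k ξ} from ⟨hk, rfl⟩)
            ((isOpen_cylK _ _).inter (isOpen_coord' ξ _))
          refine ⟨b, ?_, hB.isOpen hb, hkb, hbs.trans inter_subset_right⟩
          by_contra hbU
          exact hcon b hb hbU hkb (hbs.trans inter_subset_left)
        have hF : ∀ b : Set (S → Bool), ∃ F : Finset S, IsOpen b → k ∈ b →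
            ∀ k' : S → Bool, (∀ x ∈ F, k' x = k x) → k' ∈ b := by
          intro b
          by_cases h : IsOpen b ∧ k ∈ b
          · obtain ⟨F, hF⟩ := exists_finset h.1 h.2
            exact ⟨F, fun _ _ => hF⟩
          · exact ⟨∅, fun h1 h2 => absurd ⟨h1, h2⟩ h⟩
        choose F hF using hF
        have hcov : (univ : Set S) ⊆ ⋃ b : U, (F b : Set S) := by
          intro ξ _
          obtain ⟨b, hbU, hbo, hkb, hbs⟩ := hb ξ
          simp only [mem_iUnion]
          refine ⟨⟨b, hbU⟩, ?_⟩
          by_contra hξ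
          have := hbs (hF b hbo hkb (Function.update k ξ (!k ξ)) (fun x hx => by
            have : x ≠ ξ := fun h => hξ (h ▸ hx)
            simp [Function.update_of_ne this]))
          simp at this
        have h1 : Cardinal.mk S ≤ Cardinal.mk (⋃ b : U, (F b : Set S) : Set S) := by
          rw [← Cardinal.mk_univ]
          exact Cardinal.mk_le_mk_of_subset hcov
        have h2 : Cardinal.mk (⋃ b : U, (F b : Set S) : Set S) < Cardinal.mk S := by
          refine lt_of_le_of_lt (Cardinal.mk_iUnion_le _) ?_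
          refine Cardinal.mul_lt_of_lt hS.le hU (lt_of_le_of_lt ?_ hS)
          refine ciSup_le' fun j => ?_
          exact (Cardinal.lt_aleph0_of_finite _).le
        exact absurd h1 (not_le.2 h2)
      choose! b hbB hbU hkb hbs using key
      obtain ⟨t, ht, htc⟩ := (isClosed_cylK i.1.1 i.1.2).isCompact.elim_nhds_subcover b
        (fun k hk => (hB.isOpen (hbB k hk)).mem_nhds (hkb k hk))
      refine ⟨t.image b, ⟨?_, ?_⟩, ?_⟩
      · intro a ha
        obtain ⟨k, hk, rfl⟩ := Finset.mem_image.1 ha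
        exact ⟨hbB k (ht k hk), hbs k (ht k hk)⟩
      · intro k hk
        have := htc hk
        simp only [mem_iUnion] at this
        obtain ⟨k', hk', hkk⟩ := this
        exact ⟨b k', Finset.mem_image_of_mem _ hk', hkk⟩
      · intro a ha
        obtain ⟨k, hk, rfl⟩ := Finset.mem_image.1 ha
        exact hbU k (ht k hk))
  have hsub : {b | ∃ F G, b ∈ A ((F, G), false)} ⊆ B := by
    rintro b ⟨F, G, h⟩
    exact ((hA _).1 b h).1
  refine ⟨{b | ∃ F G, b ∈ A ((F, G), false)}, B \ {b | ∃ F G, b ∈ A ((F, G), false)},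
    union_sdiff_cancel hsub, inter_sdiff_self _ _, ?_, ?_⟩
  · refine isTopologicalBasis_of_isOpen_of_nhds (fun b hb => hB.isOpen (hsub hb)) ?_
    intro k O hk hO
    obtain ⟨F, G, hkF, hFO⟩ := exists_cyl hO hk
    obtain ⟨b, hb, hkb⟩ := (hA ((F, G), false)).2 k hkF
    exact ⟨b, ⟨F, G, hb⟩, hkb, ((hA ((F, G), false)).1 b hb).2.trans hFO⟩
  · refine isTopologicalBasis_of_isOpen_of_nhds (fun b hb => hB.isOpen hb.1) ?_
    intro k O hk hO
    obtain ⟨F, G, hkF, hFO⟩ := exists_cyl hO hk
    obtain ⟨b, hb, hkb⟩ := (hA ((F, G), true)).2 k hkF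
    refine ⟨b, ⟨((hA ((F, G), true)).1 b hb).1, ?_⟩, hkb,
      ((hA ((F, G), true)).1 b hb).2.trans hFO⟩
    rintro ⟨F', G', hb'⟩
    exact hdis _ _ (by simp) b hb hb'

end Cube

namespace Tree

variable {D : Type}

/-- basic clopen sets of the power of a discrete space -/
def cy (y : ℕ → D) (n : ℕ) : Set (ℕ → D) := {y' | ∀ j < n, y' j = y j}

theorem cy_congr {y y' : ℕ → D} {n : ℕ} (h : ∀ j < n, y j = y' j) : cy y n = cy y' n := by
  ext z
  exact ⟨fun hz j hj => (hz j hj).trans (h j hj), fun hz j hj => (hz j hj).trans (h j hj).symm⟩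

/-- `n` is the first coordinate at which points of `b` differ -/
def lev (b : Set (ℕ → D)) (n : ℕ) : Prop :=
  (∀ p ∈ b, ∀ q ∈ b, ∀ j < n, p j = q j) ∧ ∃ p ∈ b, ∃ q ∈ b, p n ≠ q n

theorem lev_le {b : Set (ℕ → D)} {m n : ℕ} (hm : lev b m) (hn : lev b n) : m ≤ n := by
  by_contra h
  push Not at h
  obtain ⟨p, hp, q, hq, hpq⟩ := hn.2
  exact hpq (hm.1 p hp q hq n h)

theorem exists_lev {b : Set (ℕ → D)} {y z : ℕ → D} (hy : y ∈ b) (hz : z ∈ b) (hyz : y ≠ z) :
    ∃ n, lev b n := by
  classical
  have hex : ∃ n, ∃ p ∈ b, ∃ q ∈ b, p n ≠ q n := by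
    obtain ⟨n, hn⟩ := Function.ne_iff.1 hyz
    exact ⟨n, y, hy, z, hz, hn⟩
  refine ⟨Nat.find hex, ?_, Nat.find_spec hex⟩
  intro p hp q hq j hj
  by_contra h
  exact Nat.find_min hex hj ⟨p, hp, q, hq, h⟩

/-- some member of `B` of level `m < n` contains `cy y n` -/
def EE (B : Set (Set (ℕ → D))) (y : ℕ → D) (n m : ℕ) : Prop :=
  m < n ∧ ∃ b ∈ B, cy y n ⊆ b ∧ lev b m

open Classical in
/-- the largest `m` with `EE B y n m` -/
noncomputable def gf (B : Set (Set (ℕ → D))) (y : ℕ → D) (n : ℕ) : ℕ :=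
  Nat.findGreatest (EE B y n) n

theorem gf_spec {B : Set (Set (ℕ → D))} {y : ℕ → D} {n m : ℕ} (h : EE B y n m) :
    EE B y n (gf B y n) ∧ m ≤ gf B y n := by
  classical
  exact ⟨Nat.findGreatest_spec h.1.le h, Nat.le_findGreatest h.1.le h⟩

open Classical in
/-- the colour of `y` at `n` -/
noncomputable def col (B : Set (Set (ℕ → D))) (y : ℕ → D) (n : ℕ) : Bool :=
  if _h : EE B y n (gf B y n) then !(col B y (gf B y n)) else false
termination_by n
decreasing_by exact _h.1

theorem col_pos {B : Set (Set (ℕ → D))} {y : ℕ → D} {n : ℕ} (h : EE B y n (gf B y n)) :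
    col B y n = !(col B y (gf B y n)) := by
  rw [col.eq_1 B y n, dif_pos h]

theorem col_neg {B : Set (Set (ℕ → D))} {y : ℕ → D} {n : ℕ} (h : ¬ EE B y n (gf B y n)) :
    col B y n = false := by
  rw [col.eq_1 B y n, dif_neg h]

theorem EE_congr {B : Set (Set (ℕ → D))} {y y' : ℕ → D} {n : ℕ} (h : ∀ j < n, y j = y' j) :
    EE B y n = EE B y' n := by
  funext m
  unfold EE
  rw [cy_congr h]

theorem gf_congr {B : Set (Set (ℕ → D))} {y y' : ℕ → D} {n : ℕ} (h : ∀ j < n, y j = y' j) :
    gf B y n = gf B y' n := by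
  unfold gf
  rw [EE_congr h]

theorem col_congr {B : Set (Set (ℕ → D))} {y y' : ℕ → D} :
    ∀ {n : ℕ}, (∀ j < n, y j = y' j) → col B y n = col B y' n := by
  intro n
  induction n using Nat.strong_induction_on with
  | _ n ih =>
    intro h
    have hE := EE_congr (B := B) h
    have hg := gf_congr (B := B) h
    by_cases h1 : EE B y n (gf B y n)
    · have h2 : EE B y' n (gf B y' n) := by rw [← hE, ← hg]; exact h1
      rw [col_pos h1, col_pos h2, ← hg, ih _ h1.1 (fun j hj => h j (hj.trans h1.1))]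
    · have h2 : ¬ EE B y' n (gf B y' n) := by rw [← hE, ← hg]; exact h1
      rw [col_neg h1, col_neg h2]

variable [TopologicalSpace D]

theorem exists_cy {O : Set (ℕ → D)} (hO : IsOpen O) {y : ℕ → D} (hy : y ∈ O) :
    ∃ n, cy y n ⊆ O := by
  obtain ⟨G, t, ht, hGT⟩ := isOpen_pi_iff.1 hO y hy
  refine ⟨G.sup id + 1, fun p h2 => hGT ?_⟩
  intro j hj
  have hj' : j ∈ G := by simpa using hj
  rw [h2 j (Nat.lt_succ_of_le (Finset.le_sup (f := id) hj'))]
  exact (ht j hj').2

variable [DiscreteTopology D]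

theorem isOpen_cy (y : ℕ → D) (n : ℕ) : IsOpen (cy y n) := by
  have : cy y n = ⋂ j ∈ Finset.range n, (fun y' : ℕ → D => y' j) ⁻¹' {y j} := by
    ext y'; simp [cy]
  rw [this]
  exact isOpen_biInter_finset fun j _ => (isOpen_discrete _).preimage (continuous_apply j)

theorem key_tree [Nontrivial D] {B : Set (Set (ℕ → D))} (hB : IsTopologicalBasis B) (y : ℕ → D)
    (n0 : ℕ) (β : Bool) : ∃ n ≥ n0, ∃ b ∈ B, y ∈ b ∧ lev b n ∧ col B y n = β := by
  classical
  have hE : ∀ n0, ∃ n ≥ n0, ∃ b ∈ B, y ∈ b ∧ lev b n := by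
    intro n0
    obtain ⟨b, hb, hyb, hbs⟩ := hB.exists_subset_of_mem_open
      (show y ∈ cy y n0 from fun _ _ => rfl) (isOpen_cy y n0)
    obtain ⟨m, hm⟩ := exists_cy (hB.isOpen hb) hyb
    obtain ⟨d, hd⟩ := exists_ne (y m)
    have hz : Function.update y m d ∈ b := hm fun j hj => by
      rw [Function.update_of_ne (ne_of_lt hj)]
    obtain ⟨n, hn⟩ := exists_lev hyb hz (fun h => hd (by
      have := congrFun h m
      simpa using this.symm))
    refine ⟨n, ?_, b, hb, hyb, hn⟩
    by_contra hlt
    push Not at hlt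
    obtain ⟨p, hp, q, hq, hpq⟩ := hn.2
    exact hpq ((hbs hp n hlt).trans (hbs hq n hlt).symm)
  by_contra hcon
  push Not at hcon
  obtain ⟨n1, hn1, b1, hb1, hyb1, hl1⟩ := hE n0
  obtain ⟨m1, hm1⟩ := exists_cy (hB.isOpen hb1) hyb1
  obtain ⟨n, hn, b, hb, hyb, hl⟩ := hE (max m1 (n1 + 1))
  have hn1n : n1 < n := lt_of_lt_of_le (Nat.lt_succ_self _) ((le_max_right _ _).trans hn)
  have hEn1 : EE B y n n1 := by
    refine ⟨hn1n, b1, hb1, fun z hz => hm1 fun j hj => hz j ?_, hl1⟩
    exact lt_of_lt_of_le hj ((le_max_left _ _).trans hn)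
  obtain ⟨hspec, hge⟩ := gf_spec hEn1
  have h3 := hspec
  obtain ⟨hlt, b', hb', hcb', hl'⟩ := hspec
  have h1 := hcon _ (hn1.trans hge) b' hb' (hcb' fun _ _ => rfl) hl'
  have h2 := hcon n (hn1.trans hn1n.le) b hb hyb hl
  rw [col_pos h3] at h2
  revert h1 h2
  cases col B y (gf B y n) <;> cases β <;> simp

theorem baseResolvable_tree [Nontrivial D] : BaseResolvable (ℕ → D) := by
  classical
  intro B hB
  refine ⟨{b | b ∈ B ∧ ∃ y ∈ b, ∃ n, lev b n ∧ col B y n = false},
    B \ {b | b ∈ B ∧ ∃ y ∈ b, ∃ n, lev b n ∧ col B y n = false},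
    union_sdiff_cancel (fun b hb => hb.1), inter_sdiff_self _ _, ?_, ?_⟩
  · refine isTopologicalBasis_of_isOpen_of_nhds (fun b hb => hB.isOpen hb.1) ?_
    intro y O hy hO
    obtain ⟨n0, hn0⟩ := exists_cy hO hy
    obtain ⟨n, hn, b, hb, hyb, hl, hc⟩ := key_tree hB y n0 false
    refine ⟨b, ⟨hb, y, hyb, n, hl, hc⟩, hyb, fun z hz => hn0 fun j hj => ?_⟩
    exact hl.1 z hz y hyb j (lt_of_lt_of_le hj hn)
  · refine isTopologicalBasis_of_isOpen_of_nhds (fun b hb => hB.isOpen hb.1) ?_
    intro y O hy hO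
    obtain ⟨n0, hn0⟩ := exists_cy hO hy
    obtain ⟨n, hn, b, hb, hyb, hl, hc⟩ := key_tree hB y n0 true
    refine ⟨b, ⟨hb, ?_⟩, hyb, fun z hz => hn0 fun j hj => ?_⟩
    · rintro ⟨-, y', hy', n', hl', hc'⟩
      have hnn : n' = n := le_antisymm (lev_le hl' hl) (lev_le hl hl')
      subst hnn
      rw [col_congr (fun j hj => hl.1 y' hy' y hyb j hj)] at hc'
      rw [hc] at hc'
      exact absurd hc' (by simp)
    · exact hl.1 z hz y hyb j (lt_of_lt_of_le hj hn)

end Tree

/-- 0-1 sequences -/
abbrev W : Type := ℕ → Bool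
/-- coordinates: level and 0-1 sequence -/
abbrev S : Type := ℕ × W

theorem exists_e : ∃ e : Finset S → W, Function.Injective e := by
  have h : Cardinal.mk (Finset S) ≤ Cardinal.mk W := by
    rw [Cardinal.mk_finset_of_infinite]
    simp
  obtain ⟨f⟩ := h
  exact ⟨f, f.injective⟩

theorem exists_r : ∃ r : W × W → W, Function.Injective r := by
  have h : Cardinal.mk (W × W) ≤ Cardinal.mk W := by
    simp
  obtain ⟨f⟩ := h
  exact ⟨f, f.injective⟩

instance : Uncountable W := by
  rw [← Cardinal.aleph0_lt_mk_iff]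
  simpa using Cardinal.aleph0_lt_continuum

/-- an injection from finite sets of coordinates to 0-1 sequences -/
noncomputable def e : Finset S → W := exists_e.choose
theorem e_inj : Function.Injective e := exists_e.choose_spec
/-- an injection from pairs of 0-1 sequences to 0-1 sequences -/
noncomputable def r : W × W → W := exists_r.choose
theorem r_inj : Function.Injective r := exists_r.choose_spec

/-- colourings of the finite sets of coordinates, with the discrete topology -/
structure D : Type where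
  /-- the colouring -/
  f : Finset S → Bool

instance : TopologicalSpace D := ⊥
instance : DiscreteTopology D := ⟨rfl⟩
instance : Inhabited D := ⟨⟨fun _ => false⟩⟩

/-- the metrizable factor -/
abbrev Y : Type := ℕ → D
/-- the compact factor -/
abbrev K : Type := S → Bool

/-- finite sets of coordinates of level at most `n` -/
def Lam (n : ℕ) : Set (Finset S) := {v | ∀ x ∈ v, x.1 ≤ n}

/-- the colour `false` is cofinal in `Lam n` -/
def Cof (n : ℕ) (c : D) : Prop := ∀ u ∈ Lam n, ∃ v ∈ Lam n, u ⊆ v ∧ c.f v = false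

open Classical in
/-- the colour chosen at stage `n` -/
noncomputable def ii (y : Y) (n : ℕ) : Bool := !decide (Cof n (y n))

theorem exists_u (n : ℕ) (c : D) : ∃ u ∈ Lam n, ¬ Cof n c → ∀ v ∈ Lam n, u ⊆ v → c.f v = true := by
  by_cases h : Cof n c
  · exact ⟨∅, by simp [Lam], fun h' => absurd h h'⟩
  · have h' := h
    unfold Cof at h'
    push Not at h'
    obtain ⟨u, hu, h2⟩ := h'
    refine ⟨u, hu, fun _ v hv huv => ?_⟩
    simpa using h2 v hv huv

/-- if `false` is not cofinal, all supersets of this set have colour `true` -/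
noncomputable def uu (n : ℕ) (c : D) : Finset S := (exists_u n c).choose
theorem uu_mem (n : ℕ) (c : D) : uu n c ∈ Lam n := (exists_u n c).choose_spec.1
theorem uu_spec {n : ℕ} {c : D} (h : ¬ Cof n c) {v : Finset S} (hv : v ∈ Lam n)
    (huv : uu n c ⊆ v) : c.f v = true := (exists_u n c).choose_spec.2 h v hv huv

/-- reserved coordinates -/
def R (y : Y) (n : ℕ) : Set S :=
  {x | ∃ τ a : W, x = (0, r (τ, a)) ∧ (∀ m, ∃ j ≥ m, τ j = false) ∧ ∀ j ≤ n, τ j = ii y j}

/-- accepted finite sets at stage `n` -/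
def V (y : Y) (n : ℕ) : Set (Finset S) :=
  {v | v ∈ Lam n ∧ (Cof n (y n) → (y n).f v = false) ∧
    (¬ Cof n (y n) → uu n (y n) ⊆ v ∧ ∀ x ∈ v, x ∈ R y n → x ∈ uu n (y n))}

open Classical in
/-- the point of `K` over `y` -/
noncomputable def ks (y : Y) (x : S) : Bool :=
  match x with
  | (0, _) => false
  | (n + 1, w) => decide (∃ v ∈ V y n, e v = w)

theorem ks_succ {y : Y} {n : ℕ} {w : W} : ks y (n + 1, w) = true ↔ ∃ v ∈ V y n, e v = w := by
  simp [ks]

/-- the main members of the base -/
def Main (y : Y) (n : ℕ) (v : Finset S) : Set (K × Y) :=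
  {p | (∀ j < n, p.2 j = y j) ∧ (∀ x ∈ v, p.1 x = ks y x) ∧ p.1 (n + 1, e v) = true}

/-- the base -/
def Bs : Set (Set (K × Y)) :=
  {b | (∃ y n v, v ∈ Lam n ∧ b = Main y n v) ∨ (IsOpen b ∧ ∀ y, (ks y, y) ∉ b)}

theorem ii_congr {y y' : Y} {n : ℕ} (h : y n = y' n) : ii y n = ii y' n := by
  unfold ii; rw [h]

theorem R_congr {y y' : Y} {n : ℕ} (h : ∀ j ≤ n, y j = y' j) : R y n = R y' n := by
  ext x
  unfold R
  constructor
  · rintro ⟨τ, a, h1, h2, h3⟩
    exact ⟨τ, a, h1, h2, fun j hj => by rw [h3 j hj]; exact ii_congr (h j hj)⟩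
  · rintro ⟨τ, a, h1, h2, h3⟩
    exact ⟨τ, a, h1, h2, fun j hj => by rw [h3 j hj]; exact (ii_congr (h j hj)).symm⟩

theorem V_congr {y y' : Y} {n : ℕ} (h : ∀ j ≤ n, y j = y' j) : V y n = V y' n := by
  unfold V
  rw [h n le_rfl, R_congr h]

theorem ks_congr {y y' : Y} {n : ℕ} (h : ∀ j < n, y j = y' j) (x : S) (hx : x.1 ≤ n) :
    ks y x = ks y' x := by
  obtain ⟨m, w⟩ := x
  cases m with
  | zero => rfl
  | succ m =>
    have : V y m = V y' m := V_congr (fun j hj => h j (by simp at hx; omega))
    rw [Bool.eq_iff_iff, ks_succ, ks_succ, this]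

theorem Main_congr {y y' : Y} {n : ℕ} (h : ∀ j < n, y j = y' j) {v : Finset S} (hv : v ∈ Lam n) :
    Main y n v = Main y' n v := by
  ext p
  unfold Main
  constructor
  · rintro ⟨h1, h2, h3⟩
    exact ⟨fun j hj => by rw [h1 j hj, h j hj],
      fun x hx => by rw [h2 x hx]; exact ks_congr h x (hv x hx), h3⟩
  · rintro ⟨h1, h2, h3⟩
    exact ⟨fun j hj => by rw [h1 j hj, h j hj],
      fun x hx => by rw [h2 x hx]; exact (ks_congr h x (hv x hx)).symm, h3⟩

theorem isOpen_cyl (y : Y) (n : ℕ) : IsOpen {y' : Y | ∀ j < n, y' j = y j} := by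
  have : {y' : Y | ∀ j < n, y' j = y j} = ⋂ j ∈ Finset.range n, (fun y' : Y => y' j) ⁻¹' {y j} := by
    ext y'; simp
  rw [this]
  exact isOpen_biInter_finset fun j _ => (isOpen_discrete _).preimage (continuous_apply j)

theorem continuous_ks : Continuous ks := by
  refine continuous_pi fun x => ?_
  rw [continuous_discrete_rng]
  intro b
  rw [isOpen_iff_forall_mem_open]
  intro y hy
  refine ⟨{y' : Y | ∀ j < x.1, y' j = y j}, ?_, isOpen_cyl y _, fun j _ => rfl⟩
  intro y' hy'
  have : ks y' x = ks y x := ks_congr hy' x le_rfl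
  simpa [this] using hy

theorem isOpen_compl_graph : IsOpen {p : K × Y | p.1 ≠ ks p.2} :=
  isOpen_ne_fun continuous_fst (continuous_ks.comp continuous_snd)

theorem isOpen_coord (ξ : S) (β : Bool) : IsOpen {p : K × Y | p.1 ξ = β} :=
  (isOpen_discrete ({β} : Set Bool)).preimage
    (show Continuous fun p : K × Y => p.1 ξ by fun_prop)

theorem isOpen_Main (y : Y) (n : ℕ) (v : Finset S) : IsOpen (Main y n v) := by
  have : Main y n v = (Prod.snd ⁻¹' {y' : Y | ∀ j < n, y' j = y j}) ∩
      ((⋂ x ∈ v, (fun p : K × Y => p.1 x) ⁻¹' {ks y x}) ∩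
        (fun p : K × Y => p.1 (n + 1, e v)) ⁻¹' {true}) := by
    ext p; simp [Main]
  rw [this]
  refine ((isOpen_cyl y n).preimage continuous_snd).inter (IsOpen.inter ?_ ?_)
  · exact isOpen_biInter_finset fun x _ =>
      (isOpen_discrete _).preimage ((continuous_apply x).comp continuous_fst)
  · exact (isOpen_discrete _).preimage ((continuous_apply _).comp continuous_fst)

theorem isOpen_Bs {b : Set (K × Y)} (hb : b ∈ Bs) : IsOpen b := by
  rcases hb with ⟨y, n, v, _, rfl⟩ | ⟨h, _⟩
  · exact isOpen_Main y n v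
  · exact h

/-- basic neighbourhoods -/
theorem exists_basic {O : Set (K × Y)} (hO : IsOpen O) {k : K} {y : Y} (h : (k, y) ∈ O) :
    ∃ (F : Finset S) (m : ℕ), ∀ p : K × Y, (∀ x ∈ F, p.1 x = k x) → (∀ j < m, p.2 j = y j) →
      p ∈ O := by
  obtain ⟨U, T, hU, hT, hkU, hyT, hUT⟩ := isOpen_prod_iff.1 hO k y h
  obtain ⟨F, u, hu, hFU⟩ := isOpen_pi_iff.1 hU k hkU
  obtain ⟨G, t, ht, hGT⟩ := isOpen_pi_iff.1 hT y hyT
  refine ⟨F, G.sup id + 1, fun p h1 h2 => hUT ⟨hFU ?_, hGT ?_⟩⟩
  · intro x hx
    rw [h1 x (by simpa using hx)]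
    exact (hu x (by simpa using hx)).2
  · intro j hj
    have hj' : j ∈ G := by simpa using hj
    rw [h2 j (Nat.lt_succ_of_le (Finset.le_sup (f := id) hj'))]
    exact (ht j hj').2

theorem mem_Lam_mono {m n : ℕ} (h : m ≤ n) {v : Finset S} (hv : v ∈ Lam m) : v ∈ Lam n :=
  fun x hx => (hv x hx).trans h

theorem R_anti {y : Y} {m n : ℕ} (h : m ≤ n) : R y n ⊆ R y m := by
  rintro x ⟨τ, a, h1, h2, h3⟩
  exact ⟨τ, a, h1, h2, fun j hj => h3 j (hj.trans h)⟩

theorem served (y : Y) (F : Finset S) (m : ℕ) : ∃ n ≥ m, ∃ v ∈ V y n, F ⊆ v := by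
  classical
  set N := max m (F.sup Prod.fst) with hN
  have hF : ∀ n ≥ N, F ∈ Lam n := fun n hn x hx =>
    (Finset.le_sup (f := Prod.fst) hx).trans ((le_max_right _ _).trans hn)
  by_cases hA : ∀ n, ∃ j ≥ n, Cof j (y j)
  · obtain ⟨n, hn, hc⟩ := hA N
    obtain ⟨v, hv, hFv, hcv⟩ := hc F (hF n hn)
    exact ⟨n, (le_max_left _ _).trans hn, v, ⟨hv, fun _ => hcv, fun h => absurd hc h⟩, hFv⟩
  · push Not at hA
    obtain ⟨n0, h0⟩ := hA
    have key : ∀ x : S, ∃ n, x ∉ R y n := by
      intro x
      by_contra hcon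
      push Not at hcon
      obtain ⟨τ, a, hx, hτ, -⟩ := hcon 0
      have h1 : ∀ j, τ j = ii y j := by
        intro j
        obtain ⟨τ', a', hx', -, h3⟩ := hcon j
        have : r (τ, a) = r (τ', a') := by
          have := hx.symm.trans hx'
          exact (Prod.mk.inj this).2
        have := r_inj this
        rw [(Prod.mk.inj this).1]
        exact h3 j le_rfl
      obtain ⟨j, hj, hj'⟩ := hτ n0
      rw [h1 j] at hj'
      simp [ii] at hj'
      exact h0 j hj hj'
    choose g hg using key
    set n := max (max N n0) (F.sup g) with hn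
    have hnN : N ≤ n := (le_max_left _ _).trans (le_max_left _ _)
    have hn0 : n0 ≤ n := (le_max_right _ _).trans (le_max_left _ _)
    refine ⟨n, (le_max_left _ _).trans hnN, F ∪ uu n (y n), ⟨?_, ?_, ?_⟩, Finset.subset_union_left⟩
    · intro x hx
      rcases Finset.mem_union.1 hx with hx | hx
      · exact hF n hnN x hx
      · exact uu_mem n (y n) x hx
    · intro h
      exact absurd h (h0 n hn0)
    · intro _
      refine ⟨Finset.subset_union_right, fun x hx hxR => ?_⟩
      rcases Finset.mem_union.1 hx with hx | hx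
      · exact absurd (R_anti ((Finset.le_sup (f := g) hx).trans (le_max_right _ _)) hxR) (hg x)
      · exact hx

theorem isBasis_Bs : IsTopologicalBasis Bs := by
  refine isTopologicalBasis_of_isOpen_of_nhds (fun b hb => isOpen_Bs hb) ?_
  rintro ⟨k, y⟩ O hp hO
  by_cases hk : k = ks y
  · subst hk
    obtain ⟨F, m, hFm⟩ := exists_basic hO hp
    obtain ⟨n, hn, v, hv, hFv⟩ := served y F m
    refine ⟨Main y n v, Or.inl ⟨y, n, v, hv.1, rfl⟩, ⟨fun j _ => rfl, fun x _ => rfl, ?_⟩, ?_⟩
    · exact ks_succ.2 ⟨v, hv, rfl⟩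
    · rintro p ⟨h1, h2, -⟩
      exact hFm p (fun x hx => h2 x (hFv hx)) (fun j hj => h1 j (lt_of_lt_of_le hj hn))
  · refine ⟨O ∩ {p : K × Y | p.1 ≠ ks p.2}, Or.inr ⟨hO.inter isOpen_compl_graph, ?_⟩, ⟨hp, hk⟩,
      inter_subset_left⟩
    rintro y' ⟨-, h⟩
    exact h rfl

theorem exists_play (c : Set (K × Y) → Bool) :
    ∃ y : Y, ∀ n, ∀ v ∈ Lam n, (y n).f v = c (Main y n v) := by
  let ys : ℕ → Y := fun n => Nat.rec default
    (fun n y => Function.update y n ⟨fun v => c (Main y n v)⟩) n
  have hys : ∀ n, ys (n + 1) = Function.update (ys n) n ⟨fun v => c (Main (ys n) n v)⟩ :=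
    fun n => rfl
  have hst : ∀ n j, j < n → ys n j = ys (j + 1) j := by
    intro n
    induction n with
    | zero => intro j hj; omega
    | succ n ih =>
      intro j hj
      by_cases hjn : j = n
      · subst hjn; rfl
      · rw [hys n, Function.update_of_ne hjn]
        exact ih j (by omega)
  refine ⟨fun n => ys (n + 1) n, fun n v hv => ?_⟩
  have h1 : Main (fun n => ys (n + 1) n) n v = Main (ys n) n v :=
    Main_congr (fun j hj => (hst n j hj).symm) hv
  rw [h1]
  show (ys (n + 1) n).f v = _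
  rw [hys n]
  simp

theorem mem_Bs_graph {b : Set (K × Y)} (hb : b ∈ Bs) {y : Y} (hy : (ks y, y) ∈ b) :
    ∃ n, ∃ v ∈ V y n, b = Main y n v := by
  rcases hb with ⟨y', n, v, hv, rfl⟩ | ⟨-, h⟩
  · have h1 : ∀ j < n, y' j = y j := fun j hj => (hy.1 j hj).symm
    obtain ⟨v', hv', he⟩ := ks_succ.1 hy.2.2
    have := e_inj he
    subst this
    exact ⟨n, v', hv', Main_congr h1 hv⟩
  · exact absurd hy (h y)

theorem V_color {y : Y} {n : ℕ} {v : Finset S} (hv : v ∈ V y n) : (y n).f v = ii y n := by
  obtain ⟨h1, h2, h3⟩ := hv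
  by_cases h : Cof n (y n)
  · rw [h2 h]; simp [ii, h]
  · rw [uu_spec h h1 (h3 h).1]; simp [ii, h]

theorem mem_of_subset {y : Y} {n : ℕ} {v : Finset S} (hv : v ∈ V y n) {ξ : S}
    (h : ∀ p ∈ Main y n v, p.1 ξ = ks y ξ) : ξ ∈ v ∨ ξ = (n + 1, e v) := by
  classical
  by_contra hcon
  push Not at hcon
  have hm : (Function.update (ks y) ξ (!ks y ξ), y) ∈ Main y n v := by
    refine ⟨fun j _ => rfl, fun x hx => ?_, ?_⟩
    · have : x ≠ ξ := fun h => hcon.1 (h ▸ hx)
      simp [Function.update_of_ne this]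
    · simp only
      rw [Function.update_of_ne (Ne.symm hcon.2)]
      exact ks_succ.2 ⟨v, hv, rfl⟩
  have := h _ hm
  simp at this

theorem not_resolvable : ¬ ∃ B₀ B₁ : Set (Set (K × Y)), B₀ ∪ B₁ = Bs ∧ B₀ ∩ B₁ = ∅ ∧
    IsTopologicalBasis B₀ ∧ IsTopologicalBasis B₁ := by
  classical
  rintro ⟨B₀, B₁, hU, hD, hB0, hB1⟩
  obtain ⟨y, hy⟩ := exists_play (fun b => decide (b ∈ B₁))
  have hcol : ∀ n, ∀ v ∈ V y n, decide (Main y n v ∈ B₁) = ii y n := fun n v hv =>
    (hy n v hv.1).symm.trans (V_color hv)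
  have hB0s : B₀ ⊆ Bs := hU ▸ subset_union_left
  have hB1s : B₁ ⊆ Bs := hU ▸ subset_union_right
  by_cases hA : ∀ n, ∃ j ≥ n, ii y j = false
  · -- the second family fails
    have hcount : {a : W | ∃ n, ((0, r (ii y, a)) : S) ∈ uu n (y n)}.Countable := by
      have : {a : W | ∃ n, ((0, r (ii y, a)) : S) ∈ uu n (y n)} =
          ⋃ n, {a : W | ((0, r (ii y, a)) : S) ∈ uu n (y n)} := by
        ext a; simp
      rw [this]
      refine countable_iUnion fun n => Set.Finite.countable ?_
      have hinj : Function.Injective (fun a : W => ((0, r (ii y, a)) : S)) := by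
        intro a b hab
        have := r_inj (Prod.mk.inj hab).2
        exact (Prod.mk.inj this).2
      exact (uu n (y n)).finite_toSet.preimage hinj.injOn
    obtain ⟨a, ha⟩ : ∃ a : W, a ∉ {a : W | ∃ n, ((0, r (ii y, a)) : S) ∈ uu n (y n)} := by
      by_contra hcon
      push Not at hcon
      have : (univ : Set W) ⊆ {a : W | ∃ n, ((0, r (ii y, a)) : S) ∈ uu n (y n)} :=
        fun a _ => hcon a
      exact not_countable_univ (hcount.mono this)
    set ξ : S := (0, r (ii y, a)) with hξ
    have hq : IsOpen {p : K × Y | p.1 ξ = ks y ξ} := isOpen_coord ξ _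
    obtain ⟨b, hb, hyb, hbq⟩ := hB1.exists_subset_of_mem_open
      (show (ks y, y) ∈ {p : K × Y | p.1 ξ = ks y ξ} from rfl) hq
    obtain ⟨n, v, hv, rfl⟩ := mem_Bs_graph (hB1s hb) hyb
    have hi : ii y n = true := by rw [← hcol n v hv]; exact decide_eq_true hb
    have hc : ¬ Cof n (y n) := by simpa [ii] using hi
    rcases mem_of_subset hv (fun p hp => hbq hp) with hξv | hξv
    · have hR : ξ ∈ R y n := ⟨ii y, a, rfl, hA, fun j _ => rfl⟩
      exact ha ⟨n, (hv.2.2 hc).2 ξ hξv hR⟩
    · exact absurd (Prod.mk.inj hξv).1 (by omega)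
  · push Not at hA
    obtain ⟨n0, h0⟩ := hA
    set ξ : S := (n0 + 1, fun _ => false) with hξ
    have hq : IsOpen {p : K × Y | p.1 ξ = ks y ξ} := isOpen_coord ξ _
    obtain ⟨b, hb, hyb, hbq⟩ := hB0.exists_subset_of_mem_open
      (show (ks y, y) ∈ {p : K × Y | p.1 ξ = ks y ξ} from rfl) hq
    obtain ⟨n, v, hv, rfl⟩ := mem_Bs_graph (hB0s hb) hyb
    have hn : n0 ≤ n := by
      rcases mem_of_subset hv (fun p hp => hbq hp) with hξv | hξv
      · have := hv.1 ξ hξv
        simp [hξ] at this; omega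
      · have := (Prod.mk.inj hξv).1
        omega
    have h1 : ii y n = true := by simpa using h0 n hn
    have h2 : Main y n v ∈ B₁ := by
      have := hcol n v hv
      rw [h1] at this
      exact of_decide_eq_true this
    exact absurd (show Main y n v ∈ B₀ ∩ B₁ from ⟨hb, h2⟩) (by rw [hD]; exact notMem_empty _)

theorem denseInItself_K : DenseInItself K := by
  classical
  intro k hk
  obtain ⟨F, u, hu, hF⟩ := isOpen_pi_iff.1 hk k rfl
  obtain ⟨x, hx⟩ := Infinite.exists_notMem_finset F
  have : Function.update k x (!k x) ∈ ({k} : Set K) := by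
    refine hF fun z hz => ?_
    have hzx : z ≠ x := fun h => hx (h ▸ (by simpa using hz))
    rw [Function.update_of_ne hzx]
    exact (hu z (by simpa using hz)).2
  have h2 := congrFun (mem_singleton_iff.1 this) x
  simp at h2

theorem denseInItself_prod : DenseInItself (K × Y) := by
  rintro ⟨k, y⟩ h
  apply denseInItself_K k
  have : ({k} : Set K) = (fun k' => (k', y)) ⁻¹' ({(k, y)} : Set (K × Y)) := by
    ext k'; simp
  rw [this]
  exact h.preimage (by fun_prop)

instance : Nontrivial D :=
  ⟨⟨fun _ => false⟩, ⟨fun _ => true⟩, fun h => by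
    have := congrFun (congrArg D.f h) ∅
    simp at this⟩

theorem denseInItself_Y : DenseInItself Y := by
  intro y hy
  obtain ⟨n, hn⟩ := Tree.exists_cy hy (mem_singleton y)
  obtain ⟨d, hd⟩ := exists_ne (y n)
  have : Function.update y n d ∈ ({y} : Set Y) := hn fun j hj => by
    rw [Function.update_of_ne (ne_of_lt hj)]
  have h2 := congrFun (mem_singleton_iff.1 this) n
  simp only [Function.update_self] at h2
  exact hd h2

theorem aleph0_lt_mk_S : Cardinal.aleph0 < Cardinal.mk S := by
  simp [Cardinal.aleph0_lt_continuum]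

/-- There are a compact Hausdorff space `K` and a completely metrizable space `Y`, both without
isolated points and both base resolvable, such that the product `K × Y` (which has no isolated
points) is not base resolvable. -/
theorem result : ∃ (K Y : Type) (_ : TopologicalSpace K) (_ : TopologicalSpace Y),
    (CompactSpace K ∧ T2Space K ∧ DenseInItself K ∧ BaseResolvable K) ∧
    (IsCompletelyMetrizableSpace Y ∧ DenseInItself Y ∧ BaseResolvable Y) ∧
    DenseInItself (K × Y) ∧ ¬ BaseResolvable (K × Y) := by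
  have : IsCompletelyMetrizableSpace D := inferInstance
  exact ⟨K, Y, inferInstance, inferInstance,
    ⟨inferInstance, inferInstance, denseInItself_K, Cube.baseResolvable_cube aleph0_lt_mk_S⟩,
    ⟨inferInstance, denseInItself_Y, Tree.baseResolvable_tree⟩,
    denseInItself_prod, fun h => not_resolvable (h Bs isBasis_Bs)⟩

end Pool.Agent.Results.MP_155eb7_gt.ProductCounterexample
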